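import Mathlib

/-!
# A four-state range-2 cellular automaton whose shortest diamond has length five

The conjecture `D(n) = n - 1` for the longest shortest diamond of non-surjective range-2 cellular
automata fails for `n = 4`.
-/

namespace Pool.Agent.Results.MP_b60c25_lc.ConjectureFalse

/-- The global map of the range-2 automaton with local rule `f`. -/
def globalMap {n : ℕ} (f : Fin n → Fin n → Fin n) (c : ℤ → Fin n) : ℤ → Fin n :=
  fun p => f (c p) (c (p + 1))

/-- `w` and `w'` form a diamond of length `l`: words of length `l + 2` with the same first letter,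
the same last letter and the same image, and different. -/
def IsDiamond {n : ℕ} (f : Fin n → Fin n → Fin n) (l : ℕ) (w w' : Fin (l + 2) → Fin n) : Prop :=
  w 0 = w' 0 ∧ w (Fin.last (l + 1)) = w' (Fin.last (l + 1)) ∧
    (∀ i : Fin (l + 1), f (w i.castSucc) (w i.succ) = f (w' i.castSucc) (w' i.succ)) ∧ w ≠ w'

/-- The least length of a diamond. -/
noncomputable def delta {n : ℕ} (f : Fin n → Fin n → Fin n) : ℕ :=
  sInf {l | 1 ≤ l ∧ ∃ w w' : Fin (l + 2) → Fin n, IsDiamond f l w w'}

/-- The maximum of the least length of a diamond over the non-surjective automata with `n`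
states. -/
noncomputable def D (n : ℕ) : ℕ :=
  sSup {d | ∃ f : Fin n → Fin n → Fin n, ¬ Function.Surjective (globalMap f) ∧ d = delta f}

theorem bddAbove_D (n : ℕ) :
    BddAbove {d | ∃ f : Fin n → Fin n → Fin n, ¬ Function.Surjective (globalMap f) ∧
      d = delta f} := by
  apply Set.Finite.bddAbove
  apply (Set.finite_range fun f : Fin n → Fin n → Fin n => delta f).subset
  rintro d ⟨f, -, rfl⟩
  exact ⟨f, rfl⟩

/-- pairs of letters that can occur at position `k` of two words with the same first letter and the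
same image -/
def reach {n : ℕ} (f : Fin n → Fin n → Fin n) : ℕ → Finset (Fin n × Fin n)
  | 0 => Finset.univ.filter fun x => x.1 = x.2
  | k + 1 => Finset.univ.filter fun x => ∃ y ∈ reach f k, f y.1 x.1 = f y.2 x.2

theorem mem_reach {n : ℕ} (f : Fin n → Fin n → Fin n) {m : ℕ} (w w' : Fin (m + 1) → Fin n)
    (h0 : w 0 = w' 0)
    (h : ∀ i : Fin m, f (w i.castSucc) (w i.succ) = f (w' i.castSucc) (w' i.succ)) :
    ∀ (k : ℕ) (hk : k < m + 1), (w ⟨k, hk⟩, w' ⟨k, hk⟩) ∈ reach f k
  | 0, _ => by
    simp only [reach, Finset.mem_filter, Finset.mem_univ, true_and]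
    exact h0
  | k + 1, hk => by
    simp only [reach, Finset.mem_filter, Finset.mem_univ, true_and]
    exact ⟨_, mem_reach f w w' h0 h k (by omega), h ⟨k, by omega⟩⟩

/-- the certificate that there is no diamond of length less than `K` -/
def NoShort {n : ℕ} (f : Fin n → Fin n → Fin n) (K : ℕ) : Prop :=
  ∀ k < K, ∀ x ∈ reach f k, x.1 ≠ x.2 → ∀ u, f x.1 u ≠ f x.2 u

theorem no_diamond {n : ℕ} (f : Fin n → Fin n → Fin n) (K : ℕ) (h : NoShort f K) (l : ℕ)
    (hl : l < K) (w w' : Fin (l + 2) → Fin n) (hd : IsDiamond f l w w') : False := by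
  classical
  obtain ⟨h0, hlast, himg, hne⟩ := hd
  -- the last position where the words differ
  obtain ⟨i, hi, hmax⟩ : ∃ i : Fin (l + 2), w i ≠ w' i ∧ ∀ j, i < j → w j = w' j := by
    obtain ⟨i, hi⟩ := Function.ne_iff.1 hne
    obtain ⟨i, hi, hm⟩ := (Finset.univ.filter fun i => w i ≠ w' i).exists_max_image id
      ⟨i, Finset.mem_filter.2 ⟨Finset.mem_univ _, hi⟩⟩
    refine ⟨i, (Finset.mem_filter.1 hi).2, fun j hj => ?_⟩
    by_contra hcon
    exact absurd (hm j (Finset.mem_filter.2 ⟨Finset.mem_univ _, hcon⟩)) (not_le.2 hj)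
  have hilast : i ≠ Fin.last (l + 1) := by
    rintro rfl
    exact hi hlast
  have hilt : (i : ℕ) < l + 1 := by
    have h1 := i.2
    have h2 : (i : ℕ) ≠ l + 1 := fun h => hilast (Fin.ext h)
    omega
  have h1 : f (w i) (w ⟨i + 1, by omega⟩) = f (w' i) (w' ⟨i + 1, by omega⟩) := himg ⟨i, hilt⟩
  rw [← hmax ⟨i + 1, by omega⟩ (by rw [Fin.lt_def]; simp)] at h1
  have hreach := mem_reach f w w' h0 himg i i.2
  exact h i (by omega) _ hreach hi _ h1

theorem delta_ge {n : ℕ} (f : Fin n → Fin n → Fin n) (K : ℕ) (h : NoShort f K)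
    (hex : ∃ l, 1 ≤ l ∧ ∃ w w' : Fin (l + 2) → Fin n, IsDiamond f l w w') : K ≤ delta f := by
  by_contra hlt
  push Not at hlt
  obtain ⟨-, w, w', hd⟩ := Nat.sInf_mem (s := {l | 1 ≤ l ∧
    ∃ w w' : Fin (l + 2) → Fin n, IsDiamond f l w w'}) hex
  exact no_diamond f K h _ hlt w w' hd

/-- the word `v` has no preimage -/
def Orphan {n : ℕ} (f : Fin n → Fin n → Fin n) (v : List (Fin n)) : Prop :=
  v.foldl (fun (s : Finset (Fin n)) t => Finset.univ.filter fun b => ∃ a ∈ s, f a b = t)
    Finset.univ = ∅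

theorem not_surjective_of_orphan {n : ℕ} [NeZero n] (f : Fin n → Fin n → Fin n) (v : List (Fin n))
    (h : Orphan f v) : ¬ Function.Surjective (globalMap f) := by
  intro hs
  · obtain ⟨c, hc⟩ := hs fun p => v.getD p.toNat 0
    have key : ∀ (u : List (Fin n)) (q : ℕ) (s : Finset (Fin n)), c q ∈ s →
        (∀ i (hi : i < u.length), globalMap f c (q + i : ℕ) = u[i]) →
        (u.foldl (fun (s : Finset (Fin n)) t => Finset.univ.filter fun b => ∃ a ∈ s, f a b = t)
          s).Nonempty := by
      intro u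
      induction u with
      | nil => intro q s hq _; exact ⟨_, hq⟩
      | cons t u ih =>
        intro q s hq hu
        rw [List.foldl_cons]
        refine ih (q + 1) _ ?_ ?_
        · simp only [Finset.mem_filter, Finset.mem_univ, true_and]
          refine ⟨c q, hq, ?_⟩
          have := hu 0 (by simp)
          simpa [globalMap] using this
        · intro i hi
          have := hu (i + 1) (by simpa using hi)
          simp only [List.getElem_cons_succ] at this
          rw [← this]
          congr 1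
          push_cast
          ring
    have := key v 0 Finset.univ (Finset.mem_univ _) (fun i hi => by
      rw [hc]
      simp only [Nat.zero_add, Int.toNat_natCast]
      exact List.getD_eq_getElem v 0 hi)
    rw [Orphan] at h
    rw [h] at this
    exact Finset.not_nonempty_empty this

/-- the local rule of the example -/
def rule : Fin 4 → Fin 4 → Fin 4 := ![![3, 1, 2, 3], ![1, 0, 3, 2], ![2, 3, 1, 0], ![0, 2, 1, 0]]

theorem rule_noShort : NoShort rule 5 := by
  unfold NoShort
  decide

theorem rule_orphan : Orphan rule [0, 2, 1, 0, 3] := by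
  unfold Orphan
  decide

theorem rule_diamond : IsDiamond rule 5 ![0, 0, 2, 2, 1, 3, 2] ![0, 3, 1, 0, 0, 2, 2] := by
  unfold IsDiamond
  decide

theorem five_le_D : 5 ≤ D 4 := by
  have h1 : 5 ≤ delta rule := delta_ge rule 5 rule_noShort ⟨5, by norm_num, _, _, rule_diamond⟩
  exact h1.trans (le_csSup (bddAbove_D 4)
    ⟨rule, not_surjective_of_orphan rule _ rule_orphan, rfl⟩)

/-- the local rule of a second example, with six states -/
def rule6 : Fin 6 → Fin 6 → Fin 6 :=
  ![![3, 4, 5, 1, 0, 2], ![4, 0, 5, 1, 2, 2], ![1, 5, 0, 4, 3, 3], ![2, 5, 4, 3, 1, 0],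
    ![0, 3, 1, 2, 4, 5], ![2, 1, 3, 0, 5, 4]]

theorem rule6_noShort : NoShort rule6 6 := by
  unfold NoShort
  decide +kernel

theorem rule6_orphan : Orphan rule6 [2, 2, 2, 4, 3, 2] := by
  unfold Orphan
  decide +kernel

theorem rule6_diamond : IsDiamond rule6 6 ![1, 4, 0, 3, 1, 4, 1, 2] ![1, 5, 3, 4, 5, 0, 0, 2] := by
  unfold IsDiamond
  decide +kernel

theorem six_le_D : 6 ≤ D 6 := by
  have h1 : 6 ≤ delta rule6 :=
    delta_ge rule6 6 rule6_noShort ⟨6, by norm_num, _, _, rule6_diamond⟩
  exact h1.trans (le_csSup (bddAbove_D 6)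
    ⟨rule6, not_surjective_of_orphan rule6 _ rule6_orphan, rfl⟩)

/-- **Disproof of the conjecture.** `D(4) ≥ 5` and `D(6) ≥ 6`, so `D(n) = n - 1` fails for
`n = 4` and for `n = 6`. -/
theorem result : 5 ≤ D 4 ∧ 6 ≤ D 6 ∧ ∃ n : ℕ, 2 ≤ n ∧ D n ≠ n - 1 := by
  refine ⟨five_le_D, six_le_D, 4, by norm_num, ?_⟩
  have := five_le_D
  omega

end Pool.Agent.Results.MP_b60c25_lc.ConjectureFalse
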